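import Pool.Agent.Helper99.BQ.Defs

open scoped Manifold ContDiff Quaternion ENNReal Topology
open Bundle Set Metric

noncomputable section

namespace Helper99.BQ

section H0

variable {F : Type*} [NormedAddCommGroup F] [InnerProductSpace ℝ F]

/-- the angle of unit vectors in terms of the chord -/
lemma angle_eq_arcsin {u v : F} (hu : ‖u‖ = 1) (hv : ‖v‖ = 1) :
    InnerProductGeometry.angle u v = 2 * Real.arcsin (‖u - v‖ / 2) := by
  set θ := InnerProductGeometry.angle u v with hθ
  have h0 : 0 ≤ θ := InnerProductGeometry.angle_nonneg _ _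
  have h1 : θ ≤ Real.pi := InnerProductGeometry.angle_le_pi _ _
  have hs : ‖u - v‖ ^ 2 = (2 * Real.sin (θ / 2)) ^ 2 := by
    have h2 := InnerProductGeometry.norm_sub_sq_eq_norm_sq_add_norm_sq_sub_two_mul_norm_mul_norm_mul_cos_angle u v
    rw [hu, hv, ← hθ] at h2
    have h3 : Real.cos θ = 1 - 2 * Real.sin (θ / 2) ^ 2 := by
      have h4 := Real.cos_two_mul (θ / 2)
      have h5 := Real.sin_sq_add_cos_sq (θ / 2)
      rw [show 2 * (θ / 2) = θ by ring] at h4
      nlinarith
    nlinarith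
  have h2 : 0 ≤ Real.sin (θ / 2) := Real.sin_nonneg_of_nonneg_of_le_pi (by linarith) (by linarith)
  have h3 : ‖u - v‖ = 2 * Real.sin (θ / 2) := by
    exact (sq_eq_sq₀ (norm_nonneg _) (by positivity)).1 hs
  rw [h3, mul_div_cancel_left₀ _ (two_ne_zero), Real.arcsin_sin (by linarith) (by linarith)]
  ring

lemma sqrt_add_sq_le (a b c d : ℝ) :
    Real.sqrt ((a + b) ^ 2 + (c + d) ^ 2) ≤ Real.sqrt (a ^ 2 + c ^ 2) + Real.sqrt (b ^ 2 + d ^ 2) := by
  have h1 : Real.sqrt (a ^ 2 + c ^ 2) ^ 2 = a ^ 2 + c ^ 2 := Real.sq_sqrt (by positivity)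
  have h2 : Real.sqrt (b ^ 2 + d ^ 2) ^ 2 = b ^ 2 + d ^ 2 := Real.sq_sqrt (by positivity)
  have h3 : 0 ≤ Real.sqrt (a ^ 2 + c ^ 2) := Real.sqrt_nonneg _
  have h4 : 0 ≤ Real.sqrt (b ^ 2 + d ^ 2) := Real.sqrt_nonneg _
  have h5 : a * b + c * d ≤ Real.sqrt (a ^ 2 + c ^ 2) * Real.sqrt (b ^ 2 + d ^ 2) := by
    rw [← Real.sqrt_mul (by positivity)]
    apply Real.le_sqrt_of_sq_le
    nlinarith [sq_nonneg (a * d - b * c)]
  apply Real.sqrt_le_iff.2
  refine ⟨by positivity, ?_⟩
  nlinarith

/-- H0b: cylinder length -/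
theorem cylinder_le_length {F : Type*} [NormedAddCommGroup F] [InnerProductSpace ℝ F]
    {x : ℝ → F} (hx : ContDiffOn ℝ 1 x (Icc 0 1)) (h1 : ∀ t ∈ Icc (0 : ℝ) 1, ‖x t‖ = 1)
    {τ : ℝ → ℝ} (hτ : ContDiffOn ℝ 1 τ (Icc 0 1)) :
    Real.sqrt (InnerProductGeometry.angle (x 0) (x 1) ^ 2 + (τ 1 - τ 0) ^ 2) ≤
      ∫ t in (0 : ℝ)..1, Real.sqrt (‖derivWithin x (Icc 0 1) t‖ ^ 2 +
        derivWithin τ (Icc 0 1) t ^ 2) := by
  have hu : UniqueDiffOn ℝ (Icc (0 : ℝ) 1) := uniqueDiffOn_Icc_zero_one
  have hx' : ContinuousOn (derivWithin x (Icc 0 1)) (Icc 0 1) :=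
    hx.continuousOn_derivWithin hu le_rfl
  have hτ' : ContinuousOn (derivWithin τ (Icc 0 1)) (Icc 0 1) :=
    hτ.continuousOn_derivWithin hu le_rfl
  set ρ : ℝ → ℝ := fun t => Real.sqrt (‖derivWithin x (Icc 0 1) t‖ ^ 2 +
        derivWithin τ (Icc 0 1) t ^ 2) with hρ
  have hρc : ContinuousOn ρ (Icc 0 1) := by
    apply ContinuousOn.sqrt
    exact (hx'.norm.pow 2).add (hτ'.pow 2)
  set ρ' : ℝ → ℝ := IccExtend (zero_le_one) (fun t : Icc (0 : ℝ) 1 => ρ t) with hρ'
  have hρ'c : Continuous ρ' := by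
    apply Continuous.Icc_extend'
    exact continuousOn_iff_continuous_domRestrict.1 hρc
  have hρe : ∀ t ∈ Icc (0 : ℝ) 1, ρ' t = ρ t := by
    intro t ht
    rw [hρ', IccExtend_of_mem _ _ ht]
  have hint : ∫ t in (0 : ℝ)..1, ρ t = ∫ t in (0 : ℝ)..1, ρ' t := by
    apply intervalIntegral.integral_congr
    intro t ht
    rw [uIcc_of_le zero_le_one] at ht
    exact (hρe t ht).symm
  rw [hint]
  set B : ℝ → ℝ := fun s => ∫ t in (0 : ℝ)..s, ρ' t with hB
  have hBd : ∀ s, HasDerivAt B (ρ' s) s := by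
    intro s
    exact hρ'c.integral_hasStrictDerivAt 0 s |>.hasDerivAt
  set f : ℝ → ℝ := fun s => Real.sqrt (InnerProductGeometry.angle (x 0) (x s) ^ 2 +
    (τ s - τ 0) ^ 2) with hf
  have hxc : ContinuousOn x (Icc 0 1) := hx.continuousOn
  have hτc : ContinuousOn τ (Icc 0 1) := hτ.continuousOn
  have hfc : ContinuousOn f (Icc 0 1) := by
    apply ContinuousOn.sqrt
    apply ContinuousOn.add
    · apply ContinuousOn.pow
      have : ContinuousOn (fun s => 2 * Real.arcsin (‖x 0 - x s‖ / 2)) (Icc 0 1) := by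
        apply ContinuousOn.mul continuousOn_const
        apply Real.continuous_arcsin.comp_continuousOn
        exact (continuousOn_const.sub hxc).norm.div_const _
      refine this.congr ?_
      intro s hs
      exact angle_eq_arcsin (h1 0 (by simp)) (h1 s hs)
    · exact (hτc.sub continuousOn_const).pow 2
  have key : ∀ ⦃s⦄, s ∈ Icc (0 : ℝ) 1 → f s ≤ B s := by
    apply image_le_of_liminf_slope_right_le_deriv_boundary (B' := ρ') hfc
    · simp only [hf, hB, sub_self, intervalIntegral.integral_same]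
      have : x 0 ≠ 0 := by
        intro h
        have := h1 0 (by simp)
        rw [h, norm_zero] at this
        exact zero_ne_one this
      rw [InnerProductGeometry.angle_self this]
      simp
    · intro s _
      exact (hBd s).continuousAt.continuousWithinAt
    · intro s _
      exact (hBd s).hasDerivWithinAt
    · intro s hs r hr
      apply Filter.Eventually.frequently
      have hsI : s ∈ Icc (0 : ℝ) 1 := ⟨hs.1, hs.2.le⟩
      have hmem : Icc (0 : ℝ) 1 ∈ 𝓝[≥] s := by
        rw [mem_nhdsGE_iff_exists_Icc_subset]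
        exact ⟨1, hs.2, Icc_subset_Icc_left hs.1⟩
      have hmem' : Icc (0 : ℝ) 1 ∈ 𝓝[>] s := nhdsWithin_mono _ Ioi_subset_Ici_self hmem
      have hdx : HasDerivWithinAt x (derivWithin x (Icc 0 1) s) (Ici s) s :=
        ((hx.differentiableOn one_ne_zero s hsI).hasDerivWithinAt).mono_of_mem_nhdsWithin hmem
      have hdτ : HasDerivWithinAt τ (derivWithin τ (Icc 0 1) s) (Ici s) s :=
        ((hτ.differentiableOn one_ne_zero s hsI).hasDerivWithinAt).mono_of_mem_nhdsWithin hmem
      have hnot : s ∉ Ioi s := by simp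
      have tx : Filter.Tendsto (slope x s) (𝓝[>] s) (𝓝 (derivWithin x (Icc 0 1) s)) :=
        (hasDerivWithinAt_iff_tendsto_slope' hnot).1 (hdx.mono Ioi_subset_Ici_self)
      have tτ : Filter.Tendsto (slope τ s) (𝓝[>] s) (𝓝 (derivWithin τ (Icc 0 1) s)) :=
        (hasDerivWithinAt_iff_tendsto_slope' hnot).1 (hdτ.mono Ioi_subset_Ici_self)
      have hself : ∀ᶠ z in 𝓝[>] s, s < z := eventually_mem_nhdsWithin
      have tg : HasDerivWithinAt (fun z => ‖x s - x z‖ / 2) (‖derivWithin x (Icc 0 1) s‖ / 2)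
          (Ioi s) s := by
        rw [hasDerivWithinAt_iff_tendsto_slope' hnot]
        have h2 := tx.norm.div_const 2
        refine h2.congr' ?_
        filter_upwards [hself] with z hz
        have hz' : 0 < z - s := sub_pos.2 hz
        simp only [slope_def_field, slope_def_module, sub_self, norm_zero, zero_div, sub_zero]
        rw [norm_smul, norm_inv, Real.norm_of_nonneg hz'.le, norm_sub_rev (x s)]
        field_simp
      have ta : Filter.Tendsto (fun z => InnerProductGeometry.angle (x s) (x z) / (z - s))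
          (𝓝[>] s) (𝓝 ‖derivWithin x (Icc 0 1) s‖) := by
        have h3 : HasDerivAt Real.arcsin (1 / Real.sqrt (1 - (0 : ℝ) ^ 2)) (‖x s - x s‖ / 2) := by
          have := Real.hasDerivAt_arcsin (x := 0) (by norm_num) (by norm_num)
          simpa using this
        have h4 := h3.comp_hasDerivWithinAt s tg
        rw [hasDerivWithinAt_iff_tendsto_slope' hnot] at h4
        have h5 := h4.const_mul 2
        have h6 : 2 * (1 / Real.sqrt (1 - (0 : ℝ) ^ 2) * (‖derivWithin x (Icc 0 1) s‖ / 2)) =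
            ‖derivWithin x (Icc 0 1) s‖ := by
          simp
          ring
        rw [h6] at h5
        refine h5.congr' ?_
        filter_upwards [hself, hmem'] with z hz hz1
        rw [angle_eq_arcsin (h1 s hsI) (h1 z hz1)]
        simp [slope_def_field]
        ring
      have tf : Filter.Tendsto (fun z => Real.sqrt
          ((InnerProductGeometry.angle (x s) (x z) / (z - s)) ^ 2 + (slope τ s z) ^ 2))
          (𝓝[>] s) (𝓝 (ρ s)) := by
        apply Filter.Tendsto.sqrt
        exact (ta.pow 2).add (tτ.pow 2)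
      rw [hρe s hsI] at hr
      filter_upwards [tf.eventually_lt_const hr, hself] with z hz hz1
      have hz' : 0 < z - s := sub_pos.2 hz1
      refine lt_of_le_of_lt ?_ hz
      rw [slope_def_field, div_le_iff₀ hz']
      have h7 : Real.sqrt ((InnerProductGeometry.angle (x s) (x z) / (z - s)) ^ 2 +
          (slope τ s z) ^ 2) * (z - s) = Real.sqrt (InnerProductGeometry.angle (x s) (x z) ^ 2 +
          (τ z - τ s) ^ 2) := by
        rw [slope_def_field]
        have h70 : ∀ p q w : ℝ, 0 < w → Real.sqrt ((p / w) ^ 2 + (q / w) ^ 2) * w =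
            Real.sqrt (p ^ 2 + q ^ 2) := by
          intro p q w hw
          have h71 : (p / w) ^ 2 + (q / w) ^ 2 = (p ^ 2 + q ^ 2) / w ^ 2 := by
            field_simp
          rw [h71, Real.sqrt_div (by positivity), Real.sqrt_sq hw.le]
          field_simp
        exact h70 _ _ _ hz'
      rw [h7]
      have h8 : f z ≤ Real.sqrt ((InnerProductGeometry.angle (x 0) (x s) +
          InnerProductGeometry.angle (x s) (x z)) ^ 2 + ((τ s - τ 0) + (τ z - τ s)) ^ 2) := by
        apply Real.sqrt_le_sqrt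
        have h9 := InnerProductGeometry.angle_le_angle_add_angle (x 0) (x s) (x z)
        have h10 := InnerProductGeometry.angle_nonneg (x 0) (x z)
        have h11 : (τ s - τ 0) + (τ z - τ s) = τ z - τ 0 := by ring
        rw [h11]
        have h12 := pow_le_pow_left₀ h10 h9 2
        linarith
      have h13 := sqrt_add_sq_le (InnerProductGeometry.angle (x 0) (x s))
        (InnerProductGeometry.angle (x s) (x z)) (τ s - τ 0) (τ z - τ s)
      simp only [hf] at h8 ⊢
      linarith
  exact key (by simp)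

/-- H0a: spherical length -/
theorem angle_le_length {F : Type*} [NormedAddCommGroup F] [InnerProductSpace ℝ F]
    {x : ℝ → F} (hx : ContDiffOn ℝ 1 x (Icc 0 1)) (h1 : ∀ t ∈ Icc (0 : ℝ) 1, ‖x t‖ = 1) :
    InnerProductGeometry.angle (x 0) (x 1) ≤ ∫ t in (0 : ℝ)..1, ‖derivWithin x (Icc 0 1) t‖ := by
  have h := cylinder_le_length hx h1 (τ := fun _ => 0) contDiffOn_const
  simpa [Real.sqrt_sq (InnerProductGeometry.angle_nonneg _ _)] using h

end H0

end Helper99.BQ
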