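import Pool.Agent.Helper60.BQ.H0

open scoped Manifold ContDiff Quaternion ENNReal Topology
open Bundle Set Metric

noncomputable section

namespace Helper99.BQ

section H1

lemma contDiffOn_inv' {n : WithTop ℕ∞} {s : Set ℝ} {g : ℝ → ℍ[ℝ]} (hg : ContDiffOn ℝ n g s)
    (h0 : ∀ t ∈ s, g t ≠ 0) : ContDiffOn ℝ n (fun t => (g t)⁻¹) s := by
  intro t ht
  have h1 := contDiffAt_ringInverse ℝ (n := n) (Units.mk0 (g t) (h0 t ht))
  rw [Units.val_mk0] at h1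
  have h2 := h1.comp_contDiffWithinAt t (hg t ht)
  refine h2.congr (fun y _ => ?_) ?_ <;> simp [Ring.inverse_eq_inv']

lemma IsPath.vel_continuousOn {g : ℝ → ℍ[ℝ]} (hg : IsPath g) : ContinuousOn (vel g) (Icc 0 1) := by
  have hu : UniqueDiffOn ℝ (Icc (0 : ℝ) 1) := uniqueDiffOn_Icc_zero_one
  exact (contDiffOn_inv' hg.smooth hg.ne).continuousOn.mul
    (hg.smooth.continuousOn_derivWithin hu le_rfl)

instance : MeasureTheory.IsProbabilityMeasure μI := ⟨by simp [μI]⟩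

lemma memLp_of_continuousOn {F : Type*} [NormedAddCommGroup F] {f : ℝ → F}
    (hf : ContinuousOn f (Icc 0 1)) (p : ℝ≥0∞) : MeasureTheory.MemLp f p μI := by
  obtain ⟨C, hC⟩ := isCompact_Icc.exists_bound_of_continuousOn hf
  refine MeasureTheory.MemLp.of_bound ?_ C ?_
  · exact hf.aestronglyMeasurable_of_isCompact isCompact_Icc measurableSet_Icc
  · rw [μI, MeasureTheory.ae_restrict_iff' measurableSet_Icc]
    exact Filter.Eventually.of_forall hC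

/-- H1a -/
theorem memLp_vel {g : ℝ → ℍ[ℝ]} (hg : IsPath g) : MeasureTheory.MemLp (vel g) 2 μI :=
  memLp_of_continuousOn hg.vel_continuousOn 2

/-- the class of `g⁻¹ g'` in `L²` -/
def wLp (g : ℝ → ℍ[ℝ]) (hg : IsPath g) : HH := (memLp_vel hg).toLp (vel g)

lemma norm_sq_orth {F : Type*} [NormedAddCommGroup F] [InnerProductSpace ℝ F] {u v : F}
    (a b : ℝ) (h : inner ℝ v u = (0 : ℝ)) :
    ‖a • u + b • v‖ ^ 2 = a ^ 2 * ‖u‖ ^ 2 + b ^ 2 * ‖v‖ ^ 2 := by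
  have h1 : inner ℝ (a • u) (b • v) = (0 : ℝ) := by
    rw [real_inner_smul_left, real_inner_smul_right, real_inner_comm, h]
    simp
  rw [norm_add_sq_real, h1, norm_smul, norm_smul, Real.norm_eq_abs, Real.norm_eq_abs, mul_pow,
    mul_pow, sq_abs, sq_abs]
  ring

/-- polar decomposition of the velocity of a nonvanishing curve -/
lemma polar_speed {h : ℝ → ℍ[ℝ]} (hs : ContDiffOn ℝ 1 h (Icc 0 1))
    (h0 : ∀ t ∈ Icc (0 : ℝ) 1, h t ≠ 0) :
    ContDiffOn ℝ 1 (fun t => ‖h t‖⁻¹ • h t) (Icc 0 1) ∧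
    ContDiffOn ℝ 1 (fun t => Real.log ‖h t‖) (Icc 0 1) ∧
    ∀ t ∈ Icc (0 : ℝ) 1, Real.sqrt (‖derivWithin (fun t => ‖h t‖⁻¹ • h t) (Icc 0 1) t‖ ^ 2 +
      derivWithin (fun t => Real.log ‖h t‖) (Icc 0 1) t ^ 2) =
      ‖derivWithin h (Icc 0 1) t‖ / ‖h t‖ := by
  have hu : UniqueDiffOn ℝ (Icc (0 : ℝ) 1) := uniqueDiffOn_Icc_zero_one
  have hn0 : ∀ t ∈ Icc (0 : ℝ) 1, ‖h t‖ ≠ 0 := fun t ht => norm_ne_zero_iff.2 (h0 t ht)
  have hN : ContDiffOn ℝ 1 (fun t => ‖h t‖) (Icc 0 1) := hs.norm ℝ h0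
  have hX : ContDiffOn ℝ 1 (fun t => ‖h t‖⁻¹ • h t) (Icc 0 1) := (hN.inv hn0).smul hs
  have hL : ContDiffOn ℝ 1 (fun t => Real.log ‖h t‖) (Icc 0 1) := hN.log hn0
  refine ⟨hX, hL, ?_⟩
  intro t ht
  set X : ℝ → ℍ[ℝ] := fun t => ‖h t‖⁻¹ • h t with hXdef
  have hX1 : ∀ s ∈ Icc (0 : ℝ) 1, ‖X s‖ = 1 := by
    intro s hs'
    simp only [hXdef, norm_smul, norm_inv, norm_norm]
    exact inv_mul_cancel₀ (hn0 s hs')
  have dX : HasDerivWithinAt X (derivWithin X (Icc 0 1) t) (Icc 0 1) t :=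
    (hX.differentiableOn one_ne_zero t ht).hasDerivWithinAt
  have dN : HasDerivWithinAt (fun t => ‖h t‖) (derivWithin (fun t => ‖h t‖) (Icc 0 1) t)
      (Icc 0 1) t := (hN.differentiableOn one_ne_zero t ht).hasDerivWithinAt
  have horth : inner ℝ (X t) (derivWithin X (Icc 0 1) t) = (0 : ℝ) := by
    have d1 := dX.inner ℝ dX
    have d2 : HasDerivWithinAt (fun s => inner ℝ (X s) (X s)) (0 : ℝ) (Icc 0 1) t := by
      refine (hasDerivWithinAt_const t (Icc (0 : ℝ) 1) (1 : ℝ)).congr (fun s hs' => ?_) ?_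
      · rw [real_inner_self_eq_norm_sq, hX1 s hs']; norm_num
      · rw [real_inner_self_eq_norm_sq, hX1 t ht]; norm_num
    have d3 := (hu t ht).eq_deriv _ d1 d2
    rw [real_inner_comm (X t)] at d3
    linarith
  have hd : derivWithin h (Icc 0 1) t = ‖h t‖ • derivWithin X (Icc 0 1) t +
      derivWithin (fun t => ‖h t‖) (Icc 0 1) t • X t := by
    have d1 := dN.smul dX
    have d2 : HasDerivWithinAt h (‖h t‖ • derivWithin X (Icc 0 1) t +
      derivWithin (fun t => ‖h t‖) (Icc 0 1) t • X t) (Icc 0 1) t := by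
      refine d1.congr (fun s hs' => ?_) ?_
      · simp only [hXdef, Pi.smul_apply', smul_smul]
        rw [mul_inv_cancel₀ (hn0 s hs'), one_smul]
      · simp only [hXdef, Pi.smul_apply', smul_smul]
        rw [mul_inv_cancel₀ (hn0 t ht), one_smul]
    exact d2.derivWithin (hu t ht)
  have hlog : derivWithin (fun t => Real.log ‖h t‖) (Icc 0 1) t =
      derivWithin (fun t => ‖h t‖) (Icc 0 1) t / ‖h t‖ :=
    (dN.log (hn0 t ht)).derivWithin (hu t ht)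
  have hsq : ‖derivWithin h (Icc 0 1) t‖ ^ 2 = ‖h t‖ ^ 2 * ‖derivWithin X (Icc 0 1) t‖ ^ 2 +
      (derivWithin (fun t => ‖h t‖) (Icc 0 1) t) ^ 2 := by
    rw [hd, norm_sq_orth _ _ horth, hX1 t ht]
    ring
  have hpos : 0 < ‖h t‖ := norm_pos_iff.2 (h0 t ht)
  rw [hlog]
  have h3 : ‖derivWithin X (Icc 0 1) t‖ ^ 2 +
      (derivWithin (fun t => ‖h t‖) (Icc 0 1) t / ‖h t‖) ^ 2 =
      (‖derivWithin h (Icc 0 1) t‖ / ‖h t‖) ^ 2 := by
    rw [div_pow, div_pow, hsq]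
    field_simp
  rw [h3, Real.sqrt_sq (by positivity)]

lemma inner_mul_right' (x y q : ℍ[ℝ]) :
    (inner ℝ (x * q) (y * q) : ℝ) = ‖q‖ ^ 2 * inner ℝ x y := by
  have h1 : q * star q = ((‖q‖ ^ 2 : ℝ) : ℍ[ℝ]) := by
    rw [Quaternion.self_mul_star, Quaternion.normSq_eq_norm_mul_self, sq]
  rw [Quaternion.inner_def, Quaternion.inner_def, star_mul]
  have h2 : x * q * (star q * star y) = ((‖q‖ ^ 2 : ℝ) : ℍ[ℝ]) * (x * star y) := by
    rw [mul_assoc, ← mul_assoc q, h1, ← mul_assoc x, ← Quaternion.coe_commutes, mul_assoc]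
  rw [h2, Quaternion.coe_mul_eq_smul]
  simp

lemma angle_mul_right' {x y q : ℍ[ℝ]} (hq : q ≠ 0) :
    InnerProductGeometry.angle (x * q) (y * q) = InnerProductGeometry.angle x y := by
  unfold InnerProductGeometry.angle
  rw [inner_mul_right', norm_mul, norm_mul]
  congr 1
  have hq' : ‖q‖ ≠ 0 := norm_ne_zero_iff.2 hq
  by_cases hx : ‖x‖ = 0
  · simp [hx]
  by_cases hy : ‖y‖ = 0
  · simp [hy]
  field_simp

lemma dG_mul_right {x y q : ℍ[ℝ]} (hx : x ≠ 0) (hy : y ≠ 0) (hq : q ≠ 0) :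
    dG (x * q) (y * q) = dG x y := by
  unfold dG
  rw [angle_mul_right' hq, norm_mul, norm_mul, Real.log_mul (norm_ne_zero_iff.2 hx)
    (norm_ne_zero_iff.2 hq), Real.log_mul (norm_ne_zero_iff.2 hy) (norm_ne_zero_iff.2 hq)]
  congr 2
  ring

/-- H1b (uses H0b) -/
theorem dG_le {g₁ g₂ : ℝ → ℍ[ℝ]} (h₁ : IsPath g₁) (h₂ : IsPath g₂) (e₁ : g₁ 0 = 1)
    (e₂ : g₂ 0 = 1) : dG (g₁ 1) (g₂ 1) ≤ ‖wLp g₁ h₁ - wLp g₂ h₂‖ := by
  have hu : UniqueDiffOn ℝ (Icc (0 : ℝ) 1) := uniqueDiffOn_Icc_zero_one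
  set h : ℝ → ℍ[ℝ] := fun t => g₂ t * (g₁ t)⁻¹ with hh
  have hs : ContDiffOn ℝ 1 h (Icc 0 1) := h₂.smooth.mul (contDiffOn_inv' h₁.smooth h₁.ne)
  have h0 : ∀ t ∈ Icc (0 : ℝ) 1, h t ≠ 0 := fun t ht =>
    mul_ne_zero (h₂.ne t ht) (inv_ne_zero (h₁.ne t ht))
  obtain ⟨hX, hL, hspeed⟩ := polar_speed hs h0
  have hX1 : ∀ t ∈ Icc (0 : ℝ) 1, ‖‖h t‖⁻¹ • h t‖ = 1 := by
    intro t ht
    rw [norm_smul, norm_inv, norm_norm]
    exact inv_mul_cancel₀ (norm_ne_zero_iff.2 (h0 t ht))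
  have hcyl := cylinder_le_length hX hX1 hL
  have hvel : ∀ t ∈ Icc (0 : ℝ) 1, ‖derivWithin h (Icc 0 1) t‖ / ‖h t‖ =
      ‖vel g₁ t - vel g₂ t‖ := by
    intro t ht
    have d1 : HasDerivWithinAt g₁ (derivWithin g₁ (Icc 0 1) t) (Icc 0 1) t :=
      (h₁.smooth.differentiableOn one_ne_zero t ht).hasDerivWithinAt
    have d2 : HasDerivWithinAt g₂ (derivWithin g₂ (Icc 0 1) t) (Icc 0 1) t :=
      (h₂.smooth.differentiableOn one_ne_zero t ht).hasDerivWithinAt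
    have dh : HasDerivWithinAt h (derivWithin h (Icc 0 1) t) (Icc 0 1) t :=
      (hs.differentiableOn one_ne_zero t ht).hasDerivWithinAt
    have d3 := dh.mul d1
    have d4 : HasDerivWithinAt (h * g₁) (derivWithin g₂ (Icc 0 1) t) (Icc 0 1) t := by
      refine d2.congr (fun s hs' => ?_) ?_
      · simp only [hh, Pi.mul_apply]
        rw [inv_mul_cancel_right₀ (h₁.ne s hs')]
      · simp only [hh, Pi.mul_apply]
        rw [inv_mul_cancel_right₀ (h₁.ne t ht)]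
    have d5 := (hu t ht).eq_deriv _ d3 d4
    have d6 : derivWithin h (Icc 0 1) t = g₂ t * (vel g₂ t - vel g₁ t) * (g₁ t)⁻¹ := by
      have d7 : derivWithin h (Icc 0 1) t * g₁ t = g₂ t * (vel g₂ t - vel g₁ t) := by
        rw [eq_sub_of_add_eq d5]
        simp only [vel, hh]
        rw [mul_sub, ← mul_assoc, ← mul_assoc, mul_inv_cancel₀ (h₂.ne t ht), one_mul]
      rw [← d7, mul_inv_cancel_right₀ (h₁.ne t ht)]
    rw [d6, norm_mul, norm_mul, hh]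
    simp only [norm_mul, norm_inv]
    rw [norm_sub_rev (vel g₂ t)]
    have e1 : ‖g₁ t‖ ≠ 0 := norm_ne_zero_iff.2 (h₁.ne t ht)
    have e2 : ‖g₂ t‖ ≠ 0 := norm_ne_zero_iff.2 (h₂.ne t ht)
    field_simp
  have hint : (∫ t in (0 : ℝ)..1, Real.sqrt (‖derivWithin (fun t => ‖h t‖⁻¹ • h t) (Icc 0 1) t‖ ^ 2
      + derivWithin (fun t => Real.log ‖h t‖) (Icc 0 1) t ^ 2)) =
      ∫ t, ‖vel g₁ t - vel g₂ t‖ ∂μI := by
    rw [intervalIntegral.integral_of_le zero_le_one, μI,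
      ← MeasureTheory.integral_Icc_eq_integral_Ioc]
    apply MeasureTheory.setIntegral_congr_fun measurableSet_Icc
    intro t ht
    simp only
    rw [hspeed t ht, hvel t ht]
  rw [hint] at hcyl
  have hdG : dG (g₁ 1) (g₂ 1) = Real.sqrt (InnerProductGeometry.angle (‖h 0‖⁻¹ • h 0)
      (‖h 1‖⁻¹ • h 1) ^ 2 + (Real.log ‖h 1‖ - Real.log ‖h 0‖) ^ 2) := by
    have e0 : h 0 = 1 := by simp [hh, e₁, e₂]
    have e1 : (g₁ 1) = 1 * g₁ 1 := (one_mul _).symm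
    have e2 : g₂ 1 = h 1 * g₁ 1 := by
      simp only [hh]
      rw [inv_mul_cancel_right₀ (h₁.ne 1 (by simp))]
    rw [e2]
    nth_rewrite 1 [e1]
    rw [dG_mul_right one_ne_zero (h0 1 (by simp)) (h₁.ne 1 (by simp)), e0]
    unfold dG
    have e3 : 0 < ‖h 1‖⁻¹ := inv_pos.2 (norm_pos_iff.2 (h0 1 (by simp)))
    rw [InnerProductGeometry.angle_smul_right_of_pos _ _ e3]
    simp
  rw [hdG]
  refine hcyl.trans ?_
  have hm : MeasureTheory.MemLp (vel g₁ - vel g₂) 2 μI := (memLp_vel h₁).sub (memLp_vel h₂)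
  have hw : wLp g₁ h₁ - wLp g₂ h₂ = hm.toLp (vel g₁ - vel g₂) :=
    (MeasureTheory.MemLp.toLp_sub (memLp_vel h₁) (memLp_vel h₂)).symm
  rw [hw, MeasureTheory.Lp.norm_toLp]
  have h5 : ∫ t, ‖vel g₁ t - vel g₂ t‖ ∂μI =
      (MeasureTheory.eLpNorm (vel g₁ - vel g₂) 1 μI).toReal := by
    rw [MeasureTheory.eLpNorm_one_eq_lintegral_enorm]
    exact MeasureTheory.integral_norm_eq_lintegral_enorm hm.aestronglyMeasurable
  rw [h5]
  apply ENNReal.toReal_mono hm.eLpNorm_ne_top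
  exact MeasureTheory.eLpNorm_le_eLpNorm_of_exponent_le (by norm_num) hm.aestronglyMeasurable

end H1

end Helper99.BQ
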